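import Pool.Agent.Helper67.BT.Stmts

set_option autoImplicit false

open Finset MeasureTheory

namespace Pool.Agent.Helper67.BT

theorem lb_one (k : ℕ) (hD : ST_DVB) : ∃ K : ℝ, 1 ≤ K ∧ ∀ (n : ℕ) (c : Cfg n k) (p : ℝ) (f : E k),
    2 < p → p ≤ 3 → ‖f‖ ^ 2 ≤ K * av c p fun x => (inner ℝ f x) ^ 2 := by
  obtain ⟨K4, hK4, h4⟩ := exists_K k 4
  have hK1 : (1 : ℝ) ≤ 9 * ((k : ℝ) ^ 2 + 1) * K4 := by
    have h1 : (1 : ℝ) ≤ 9 * ((k : ℝ) ^ 2 + 1) := by nlinarith [sq_nonneg (k : ℝ)]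
    nlinarith
  refine ⟨9 * ((k : ℝ) ^ 2 + 1) * K4, hK1, fun n c p f hp hp3 => ?_⟩
  have hA0 : 0 ≤ av c p fun x => (inner ℝ f x) ^ 2 := av_nonneg c hp.le hp3 fun x => sq_nonneg _
  rcases eq_or_ne f 0 with hf | hf
  · have h0 : ‖f‖ ^ 2 = 0 := by rw [hf]; simp
    rw [h0]
    exact mul_nonneg (by linarith) hA0
  have hf0 : 0 < ‖f‖ := norm_pos_iff.2 hf
  have h1 : av c p (fun x => inner ℝ f x * dV c p f x) = ‖f‖ ^ 2 := by
    have hl : ∀ x, HasLineDerivAt ℝ (fun x => inner ℝ f x) (inner ℝ f f) x f := by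
      intro x
      exact inner_line f x f
    rw [av_ibp c hp hp3 f (PG_inner f) (PG_const (inner ℝ f f)) hl, av_const c hp.le hp3,
      real_inner_self_eq_norm_sq]
  have h2 := av_CS c hp.le hp3 (PG_inner f) (PG_dV c hp.le f)
  rw [h1] at h2
  have h3 : (av c p fun x => dV c p f x ^ 2) ≤ 9 * (k : ℝ) ^ 2 * ‖f‖ ^ 2 * K4 := by
    calc (av c p fun x => dV c p f x ^ 2)
        ≤ av c p fun x => (9 * (k : ℝ) ^ 2 * ‖f‖ ^ 2) * (1 + ‖x‖) ^ 4 := by
          apply av_mono c hp.le hp3 (PG_pow (PG_dV c hp.le f) 2)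
            (PG_const_mul _ (PG_pow (PG_add (PG_const 1) PG_norm) 4))
          intro x
          have h := (hD n k c p f x hp hp3).1
          calc dV c p f x ^ 2 = |dV c p f x| ^ 2 := (sq_abs _).symm
            _ ≤ (3 * k * ‖f‖ * (1 + ‖x‖) ^ 2) ^ 2 := pow_le_pow_left₀ (abs_nonneg _) h 2
            _ = _ := by ring
      _ = 9 * (k : ℝ) ^ 2 * ‖f‖ ^ 2 * av c p (fun x => (1 + ‖x‖) ^ 4) := av_const_mul c p _ _
      _ ≤ _ := mul_le_mul_of_nonneg_left (h4 n c p hp.le hp3) (by positivity)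
  have h5 := h2.trans (mul_le_mul_of_nonneg_left h3 hA0)
  generalize (av c p fun x => (inner ℝ f x) ^ 2) = A at hA0 h5 ⊢
  have h6 : ‖f‖ ^ 2 * ‖f‖ ^ 2 ≤ ‖f‖ ^ 2 * (9 * ((k : ℝ) ^ 2 + 1) * K4 * A) := by
    have h7 : 0 ≤ 9 * K4 * A * ‖f‖ ^ 2 := by positivity
    nlinarith
  exact le_of_mul_le_mul_left h6 (by positivity)

theorem lb_two (k : ℕ) (hP : ST_PT) (hD : ST_DVB) : ∃ K : ℝ, 1 ≤ K ∧ ∀ (n : ℕ) (c : Cfg n k)
    (p : ℝ) (i : Fin n) (f : E k), 2 < p → p ≤ 3 →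
    |av c p fun x => om p (c.z i x) * (inner ℝ f x) ^ 2| ≤ K * (p - 2) * ‖f‖ ^ 2 := by
  obtain ⟨K6, hK6, h6⟩ := exists_K k 6
  have hk0 : (0 : ℝ) ≤ k := Nat.cast_nonneg k
  refine ⟨2 * (3 * k + 2) * K6, by nlinarith, fun n c p i f hp hp3 => ?_⟩
  have hOm : PG (fun x => Om p (c.z i x)) := PG_Om (PG_z c i) hp.le
  have hom : PG (fun x => om p (c.z i x)) := PG_om (PG_z c i) hp.le
  have hf2 : PG (fun x => inner ℝ f x ^ 2) := PG_pow (PG_inner f) 2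
  have hF : PG (fun x => Om p (c.z i x) * inner ℝ f x ^ 2) := PG_mul hOm hf2
  have hG : PG (fun x => Om p (c.z i x) * (2 * inner ℝ f x * inner ℝ f (c.e i))) :=
    PG_mul hOm (PG_mul (PG_const_mul 2 (PG_inner f)) (PG_const _))
  have hF' : PG (fun x => om p (c.z i x) * inner ℝ f x ^ 2 +
      Om p (c.z i x) * (2 * inner ℝ f x * inner ℝ f (c.e i))) := PG_add (PG_mul hom hf2) hG
  have hline : ∀ x, HasLineDerivAt ℝ (fun x => Om p (c.z i x) * inner ℝ f x ^ 2)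
      (om p (c.z i x) * inner ℝ f x ^ 2 +
        Om p (c.z i x) * (2 * inner ℝ f x * inner ℝ f (c.e i))) x (c.e i) := by
    intro x
    have h1 : HasDerivAt (fun t : ℝ => Om p (c.z i (x + t • c.e i)))
        (om p (c.z i x) * inner ℝ (c.e i) (c.e i)) 0 :=
      comp_line (c.e i) x (c.e i) (Om_der hp (c.z i x))
    have h2 : HasDerivAt (fun t : ℝ => inner ℝ f (x + t • c.e i)) (inner ℝ f (c.e i)) 0 :=
      inner_line f x (c.e i)
    have h3 := h1.mul (h2.pow 2)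
    have h4 : inner ℝ (c.e i) (c.e i) = (1 : ℝ) := by
      rw [real_inner_self_eq_norm_sq, c.e1]
      norm_num
    have h5 : HasDerivAt (fun t : ℝ => Om p (c.z i (x + t • c.e i)) *
        inner ℝ f (x + t • c.e i) ^ 2) _ 0 := h3
    refine HasDerivAt.congr_deriv h5 ?_
    rw [h4]
    simp only [Pi.pow_apply, zero_smul, add_zero]
    push_cast
    ring
  have hibp := av_ibp c hp hp3 (c.e i) hF hF' hline
  rw [av_add c hp.le hp3 (PG_mul hom hf2) hG] at hibp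
  have heq : (av c p fun x => om p (c.z i x) * (inner ℝ f x) ^ 2) =
      av c p (fun x => Om p (c.z i x) * inner ℝ f x ^ 2 * dV c p (c.e i) x -
        Om p (c.z i x) * (2 * inner ℝ f x * inner ℝ f (c.e i))) := by
    rw [av_sub c hp.le hp3 (PG_mul hF (PG_dV c hp.le _)) hG]
    linarith
  rw [heq]
  calc |av c p (fun x => Om p (c.z i x) * inner ℝ f x ^ 2 * dV c p (c.e i) x -
        Om p (c.z i x) * (2 * inner ℝ f x * inner ℝ f (c.e i)))|
      ≤ av c p (fun x => (2 * (3 * k + 2) * (p - 2) * ‖f‖ ^ 2) * (1 + ‖x‖) ^ 6) := by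
        apply av_abs_le c hp.le hp3 (PG_sub (PG_mul hF (PG_dV c hp.le _)) hG)
          (PG_const_mul _ (PG_pow (PG_add (PG_const 1) PG_norm) 6))
        intro x
        have hp2 : 0 < p - 2 := by linarith
        have hr : 0 ≤ ‖x‖ := norm_nonneg x
        have hf0 : 0 ≤ ‖f‖ := norm_nonneg f
        have hz : |c.z i x| ≤ ‖x‖ := z_le c i x
        have hO : |Om p (c.z i x)| ≤ 2 * (p - 2) * (1 + ‖x‖) ^ 2 := by
          refine (hP p (c.z i x) 0 0 hp hp3).2.1.trans ?_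
          apply mul_le_mul_of_nonneg_left _ (by positivity)
          exact pow_le_pow_left₀ (by positivity) (by linarith) 2
        have hu : |inner ℝ f x| ≤ ‖f‖ * ‖x‖ := abs_real_inner_le_norm f x
        have hw : |inner ℝ f (c.e i)| ≤ ‖f‖ := by
          have := abs_real_inner_le_norm f (c.e i)
          rwa [c.e1, mul_one] at this
        have hd : |dV c p (c.e i) x| ≤ 3 * k * (1 + ‖x‖) ^ 2 := by
          have := (hD n k c p (c.e i) x hp hp3).1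
          rwa [c.e1, mul_one] at this
        generalize Om p (c.z i x) = O at hO ⊢
        generalize inner ℝ f x = u at hu ⊢
        generalize inner ℝ f (c.e i) = w at hw ⊢
        generalize dV c p (c.e i) x = D at hd ⊢
        have e1 : O * u ^ 2 * D - O * (2 * u * w) = O * (u ^ 2 * D - 2 * u * w) := by ring
        rw [e1, abs_mul]
        have e2 : |u ^ 2 * D - 2 * u * w| ≤ |u| ^ 2 * |D| + 2 * |u| * |w| := by
          refine (abs_sub _ _).trans ?_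
          rw [abs_mul, abs_mul, abs_mul, abs_pow, abs_two]
        have e3 : |u| ^ 2 * |D| ≤ (‖f‖ * ‖x‖) ^ 2 * (3 * k * (1 + ‖x‖) ^ 2) :=
          mul_le_mul (pow_le_pow_left₀ (abs_nonneg _) hu 2) hd (abs_nonneg _) (by positivity)
        have e4 : 2 * |u| * |w| ≤ 2 * (‖f‖ * ‖x‖) * ‖f‖ :=
          mul_le_mul (by linarith) hw (abs_nonneg _) (by positivity)
        have e5 : ‖x‖ ^ 2 ≤ (1 + ‖x‖) ^ 2 := pow_le_pow_left₀ hr (by linarith) 2
        have e6 : ‖x‖ ≤ (1 + ‖x‖) ^ 4 := by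
          have h1 : (1 : ℝ) ≤ (1 + ‖x‖) ^ 3 := one_le_pow₀ (by linarith)
          nlinarith
        have e7 : (‖f‖ * ‖x‖) ^ 2 * (3 * k * (1 + ‖x‖) ^ 2) ≤
            ‖f‖ ^ 2 * (3 * k) * (1 + ‖x‖) ^ 4 := by
          calc (‖f‖ * ‖x‖) ^ 2 * (3 * k * (1 + ‖x‖) ^ 2) =
              (‖f‖ ^ 2 * (3 * k) * (1 + ‖x‖) ^ 2) * ‖x‖ ^ 2 := by ring
            _ ≤ (‖f‖ ^ 2 * (3 * k) * (1 + ‖x‖) ^ 2) * (1 + ‖x‖) ^ 2 :=
              mul_le_mul_of_nonneg_left e5 (by positivity)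
            _ = _ := by ring
        have e8 : 2 * (‖f‖ * ‖x‖) * ‖f‖ ≤ ‖f‖ ^ 2 * 2 * (1 + ‖x‖) ^ 4 := by
          calc 2 * (‖f‖ * ‖x‖) * ‖f‖ = ‖f‖ ^ 2 * 2 * ‖x‖ := by ring
            _ ≤ _ := mul_le_mul_of_nonneg_left e6 (by positivity)
        have e9 : |u ^ 2 * D - 2 * u * w| ≤ ‖f‖ ^ 2 * (3 * k + 2) * (1 + ‖x‖) ^ 4 := by
          calc |u ^ 2 * D - 2 * u * w| ≤ ‖f‖ ^ 2 * (3 * k) * (1 + ‖x‖) ^ 4 +
              ‖f‖ ^ 2 * 2 * (1 + ‖x‖) ^ 4 := by linarith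
            _ = _ := by ring
        calc |O| * |u ^ 2 * D - 2 * u * w| ≤ (2 * (p - 2) * (1 + ‖x‖) ^ 2) *
            (‖f‖ ^ 2 * (3 * k + 2) * (1 + ‖x‖) ^ 4) :=
              mul_le_mul hO e9 (abs_nonneg _) (by positivity)
          _ = _ := by ring
    _ = (2 * (3 * k + 2) * (p - 2) * ‖f‖ ^ 2) * av c p (fun x => (1 + ‖x‖) ^ 6) :=
        av_const_mul c p _ _
    _ ≤ (2 * (3 * k + 2) * (p - 2) * ‖f‖ ^ 2) * K6 := by
        apply mul_le_mul_of_nonneg_left (h6 n c p hp.le hp3)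
        have : 0 < p - 2 := by linarith
        positivity
    _ = _ := by ring

theorem st_LB (hP : ST_PT) (hD : ST_DVB) : ST_LB := by
  intro k
  obtain ⟨K1, hK1, h1⟩ := lb_one k hD
  obtain ⟨K2, hK2, h2⟩ := lb_two k hP hD
  refine ⟨max K1 K2, hK1.trans (le_max_left _ _), fun n c p i f hp hp3 => ?_⟩
  have e1 := h1 n c p f hp hp3
  have e2 := h2 n c p i f hp hp3
  have hf2 : PG (fun x => inner ℝ f x ^ 2) := PG_pow (PG_inner f) 2
  have hom : PG (fun x => om p (c.z i x)) := PG_om (PG_z c i) hp.le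
  have e3 : (av c p fun x => |c.z i x| ^ (p - 2) * (inner ℝ f x) ^ 2) =
      (av c p fun x => (inner ℝ f x) ^ 2) +
        av c p fun x => om p (c.z i x) * (inner ℝ f x) ^ 2 := by
    rw [← av_add c hp.le hp3 hf2 (PG_mul hom hf2)]
    congr 1
    ext x
    unfold om
    ring
  rw [e3]
  have e4 := (abs_le.1 e2).1
  generalize (av c p fun x => (inner ℝ f x) ^ 2) = A at e1 ⊢
  generalize (av c p fun x => om p (c.z i x) * (inner ℝ f x) ^ 2) = B at e4 ⊢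
  have hf0 : 0 ≤ ‖f‖ ^ 2 := sq_nonneg _
  have e5 : 1 / max K1 K2 * ‖f‖ ^ 2 ≤ A := by
    have h3 : 1 / max K1 K2 ≤ 1 / K1 := one_div_le_one_div_of_le (by linarith) (le_max_left _ _)
    calc 1 / max K1 K2 * ‖f‖ ^ 2 ≤ 1 / K1 * ‖f‖ ^ 2 := mul_le_mul_of_nonneg_right h3 hf0
      _ ≤ 1 / K1 * (K1 * A) := mul_le_mul_of_nonneg_left e1 (by positivity)
      _ = A := by
        have : K1 ≠ 0 := by linarith
        field_simp
  have e6 : K2 * (p - 2) * ‖f‖ ^ 2 ≤ max K1 K2 * (p - 2) * ‖f‖ ^ 2 := by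
    apply mul_le_mul_of_nonneg_right _ hf0
    apply mul_le_mul_of_nonneg_right (le_max_right _ _)
    linarith
  calc (1 / max K1 K2 - max K1 K2 * (p - 2)) * ‖f‖ ^ 2 =
      1 / max K1 K2 * ‖f‖ ^ 2 - max K1 K2 * (p - 2) * ‖f‖ ^ 2 := by ring
    _ ≤ A + B := by linarith

end Pool.Agent.Helper67.BT
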